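import Pool.Agent.RankS.LocalP
import Pool.Agent.PG.GR0P
import Pool.Agent.PG.TDim
import Pool.Agent.PG.Quad

/-!
# The orbit dimension for Lie groups over `ℚ_p`
-/

set_option autoImplicit false
set_option linter.unusedVariables false

open Set MeasureTheory Metric Filter Topology Module
open scoped Manifold ContDiff ENNReal

namespace Pool.Agent.RankS

open Pool.Agent.Helper3.HS Pool.Agent.HSF Pool.Agent.PG

universe u

variable {p : ℕ} [hp : Fact p.Prime] {r : ℕ} {Γ : Type u} [TopologicalSpace Γ]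
  [ChartedSpace (Fin r → ℚ_[p]) Γ] [Group Γ] [LieGroup 𝓘(ℚ_[p], Fin r → ℚ_[p]) ω Γ]

/-- The group data of a Lie group over `ℚ_p`. -/
theorem smallP_lie (hr : 1 ≤ r) (D : ℕ) : SmallP Γ p D (fun K =>
    tdim 𝓘(ℚ_[p], Fin r → ℚ_[p]) (K : Set Γ) + (D + 1) ≤ r) := by
  obtain ⟨B, hB⟩ := exists_quad (I := 𝓘(ℚ_[p], Fin r → ℚ_[p])) (G := Γ)
  obtain ⟨A, c, hA⟩ := exists_Lw_coord 𝓘(ℚ_[p], Fin r → ℚ_[p]) hB
  have hfr : finrank ℚ_[p] (Fin r → ℚ_[p]) = r := finrank_fin_fun _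
  obtain ⟨e, k, i1, w, he, hall⟩ := exists_GR0P.{u} p (finrank ℚ_[p] (Fin r → ℚ_[p])) D
    (by rw [hfr]; exact hr)
  intro V hV
  obtain ⟨κ, hκ, U, hUo, hUc, hUV, hUs, W, -, N, hN⟩ := hA (e + 2) V hV
  obtain ⟨E, hE1, hE2⟩ := hall W (by omega)
  refine ⟨U, hUo, isCompact_iff_compactSpace.1 hUc, hUV, _, k, i1, w, E, by rw [hfr]; exact hr,
    ?_, hE2⟩
  intro K hK hSm
  have h3 : finrank (ZMod p) (W.cls (le_trans (Nat.le_add_left 1 e) (by omega)) (K.subgroupOf U)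
      (e - 1)) ≤ tdim 𝓘(ℚ_[p], Fin r → ℚ_[p]) (K : Set Γ) :=
    (W.finrank_cls_le (by omega) (K.subgroupOf U) (e - 1)).trans
      (finrank_lie_le_tdim hUs W (by omega) A hN K)
  obtain ⟨Ξ, h1, h2⟩ := hE1 (K.subgroupOf U) (hK.preimage continuous_subtype_val) (by
    have h4 : tdim 𝓘(ℚ_[p], Fin r → ℚ_[p]) (K : Set Γ) + (D + 1) ≤ r := hSm
    omega)
  exact ⟨Ξ, fun c h hh => h1 c h hh, h2⟩

/-- The orbit dimension for Lie groups over `ℚ_p`. -/
theorem final_P {d D : ℕ} [MeasurableSpace Γ] [BorelSpace Γ] {μ : Measure Γ} [μ.IsHaarMeasure]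
    {X : Type*} [MetricSpace X] [MeasurableSpace X] [BorelSpace X] [MulAction Γ X]
    [ContinuousSMul Γ X] {R : Set X} (hRo : IsOpen R) (hR : R ⊆ regPts (d + 1) X)
    (hE : ∀ x ∈ R, ∃ V ∈ 𝓝 x, ∃ O : Set Γ, IsOpen O ∧ O.Nonempty ∧ ∀ ε : ℝ≥0∞, 0 < ε →
      ∃ h : ℝ, 0 < h ∧ h ≤ 1 ∧
      ∫⁻ a in O, ∫⁻ y in V, Metric.ediam ((fun z => a • z) '' (ball y h ∩ V)) ^ (d + 1 + D)
        ∂(μH[((d + 1 : ℕ) : ℝ)] : Measure X) ∂μ ≤ ε * ENNReal.ofReal (h ^ d)) :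
    R ⊆ closure {x | (∃ H : Subgroup Γ, IsOpen (H : Set Γ) ∧ ∀ᶠ y in 𝓝 x, ∀ a ∈ H, a • y = y) ∨
      (¬ IsOpen (MulAction.stabilizer Γ x : Set Γ) ∧
        r ≤ tdim 𝓘(ℚ_[p], Fin r → ℚ_[p]) (MulAction.stabilizer Γ x : Set Γ) + D)} := by
  have hΓ : IsTopologicalGroup Γ := topologicalGroup_of_lieGroup 𝓘(ℚ_[p], Fin r → ℚ_[p]) ω
  have hfc : FirstCountableTopology Γ := by
    constructor
    intro x
    have h1 := (chartAt (Fin r → ℚ_[p]) x).symm_map_nhds_eq (mem_chart_source _ x)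
    rw [← h1]
    infer_instance
  rcases Nat.eq_zero_or_pos r with hr | hr
  · subst hr
    intro x hx
    apply subset_closure
    left
    refine ⟨⊥, ?_, Filter.Eventually.of_forall fun y a ha => ?_⟩
    · have h1 : ((⊥ : Subgroup Γ) : Set Γ) = (chartAt (Fin 0 → ℚ_[p]) (1 : Γ)).source := by
        ext g
        rw [SetLike.mem_coe, Subgroup.mem_bot]
        constructor
        · rintro rfl
          exact mem_chart_source _ _
        · intro hg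
          exact (chartAt (Fin 0 → ℚ_[p]) (1 : Γ)).injOn hg (mem_chart_source _ _)
            (Subsingleton.elim _ _)
      rw [h1]
      exact (chartAt (Fin 0 → ℚ_[p]) (1 : Γ)).open_source
    · rw [Subgroup.mem_bot.1 ha, one_smul]
  · refine (main_P (d := d) (p := p) (μ := μ) (smallP_lie hr D) hRo hR hE).trans
      (closure_mono ?_)
    rintro x (h | ⟨h1, h2⟩)
    · exact Or.inl h
    · refine Or.inr ⟨h1, ?_⟩
      have h3 : ¬ (tdim 𝓘(ℚ_[p], Fin r → ℚ_[p]) (MulAction.stabilizer Γ x : Set Γ) + (D + 1) ≤ r) :=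
        h2
      omega

end Pool.Agent.RankS
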