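import Pool.Agent.RankS.ThinE
import Pool.Agent.HSF.T2
import Pool.Agent.HSF.LocalG

/-!
# The local argument for the orbit dimension
-/

set_option autoImplicit false
set_option linter.unusedSectionVars false
set_option linter.unusedVariables false

open Set MeasureTheory Metric Filter Topology
open scoped NNReal ENNReal

namespace Pool.Agent.RankS

open Pool.Agent.Helper3.HS Pool.Agent.HSF Pool.Agent.Helper83.TF

/-- `Γ` has arbitrarily small compact open subgroups with group data, with dual families for the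
closed subgroups with the property `Sm`. -/
def SmallP (Γ : Type*) [Group Γ] [TopologicalSpace Γ] (p D : ℕ) (Sm : Subgroup Γ → Prop) : Prop :=
  ∀ V ∈ 𝓝 (1 : Γ), ∃ H : Subgroup Γ, IsOpen (H : Set Γ) ∧ CompactSpace H ∧ (H : Set Γ) ⊆ V ∧
    ∃ (r : ℕ) (k : Type) (_ : CommRing k) (w : Fin (D + 1) → (Fin r → k)) (E : GR0 H p r k),
      1 ≤ r ∧ (∀ K : Subgroup Γ, IsClosed (K : Set Γ) → Sm K →
        ∃ Ξ : Fin (D + 1) → Fin r → k, (∀ c, ∀ h : H, (h : Γ) ∈ K → ∑ i, Ξ c i * E.χ h i = 0) ∧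
          ∀ c j, ∑ i, Ξ c i * w j i = if c = j then 1 else 0) ∧
      (∀ K : Subgroup H, IsClosed (K : Set H) → K ≠ ⊤ → ∃ η : H → ZMod p,
        (∀ g h, η (g * h) = η g + η h) ∧ (∀ g ∈ K, η g = 0) ∧ (∀ g ∈ E.G₂, η g = 0) ∧
          ∃ g, η g ≠ 0)

section main

variable {d D p : ℕ} [Fact p.Prime] {Γ : Type*} [Group Γ] [TopologicalSpace Γ]
  [IsTopologicalGroup Γ] [FirstCountableTopology Γ] [MeasurableSpace Γ] [BorelSpace Γ]
  {μ : Measure Γ} [μ.IsHaarMeasure]
  {X : Type*} [MetricSpace X] [MeasurableSpace X] [BorelSpace X] [MulAction Γ X]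
  [ContinuousSMul Γ X]

/-- **The local statement.** -/
theorem local_P {Sm : Subgroup Γ → Prop} (hGR : SmallP Γ p D Sm) {W : Set X} (hWo : IsOpen W)
    {x₀ : X} (hx₀W : x₀ ∈ W) (hx₀ : x₀ ∈ regPts (d + 1) X)
    (hE : ∃ V ∈ 𝓝 x₀, ∃ O : Set Γ, IsOpen O ∧ O.Nonempty ∧ ∀ ε : ℝ≥0∞, 0 < ε → ∃ h : ℝ, 0 < h ∧ h ≤ 1 ∧ ∫⁻ a in O,
      ∫⁻ y in V, Metric.ediam ((fun z => a • z) '' (ball y h ∩ V)) ^ (d + 1 + D)
        ∂(μH[((d + 1 : ℕ) : ℝ)] : Measure X) ∂μ ≤ ε * ENNReal.ofReal (h ^ d))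
    (hst : ∀ x ∈ W, IsOpen (MulAction.stabilizer Γ x : Set Γ) ∨ Sm (MulAction.stabilizer Γ x))
    (hfix : ∀ N : Subgroup Γ, IsOpen (N : Set Γ) → ∀ O : Set X, IsOpen O → O ⊆ W → O.Nonempty →
      ∃ x ∈ O, ∃ a ∈ N, a • x ≠ x) : False := by
  obtain ⟨V, hV, O, hOo, ⟨g₀, hg₀⟩, hJ⟩ := hE
  have hO : (fun a : Γ => g₀ * a) ⁻¹' O ∈ 𝓝 (1 : Γ) := by
    apply (continuous_const_mul g₀).continuousAt.preimage_mem_nhds
    rw [mul_one]
    exact hOo.mem_nhds hg₀
  obtain ⟨e, C₀, hxe, hLe, hLs⟩ := hx₀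
  have hpre : e.target ∩ e.symm ⁻¹' (V ∩ W) ∈ 𝓝 (e x₀) := by
    apply Filter.inter_mem (e.open_target.mem_nhds (e.map_source hxe))
    apply (e.symm.continuousAt (e.map_source hxe)).preimage_mem_nhds
    rw [e.left_inv hxe]
    exact Filter.inter_mem hV (hWo.mem_nhds hx₀W)
  obtain ⟨s₀, hs₀, hball⟩ := Metric.nhds_basis_closedBall.mem_iff.mp hpre
  obtain ⟨s, hs, hss₀, hst', V₁, hV₁, hLG⟩ := exists_LG (G := Γ) e hxe hs₀
  obtain ⟨H, hHo, hHc, hHV, r, k, _, w, E, hr, hdual, hfinE⟩ := hGR _ (Filter.inter_mem hV₁ hO)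
  obtain ⟨L, hLc, hLs', hLg⟩ := hLG H (fun g hg => (hHV hg).1) hHc
  have hcb : closedBall L.c L.s = closedBall (e x₀) s := by rw [hLc, hLs']
  have hUcb : ∀ u ∈ L.U, u ∈ closedBall (e x₀) s := fun u hu => hcb ▸ L.hUc hu
  have htar : ∀ u ∈ closedBall (e x₀) s, u ∈ e.target := fun u hu => hst' hu
  have hinV : ∀ u ∈ closedBall (e x₀) s, e.symm u ∈ V := fun u hu =>
    (hball (closedBall_subset_closedBall hss₀ hu)).2.1
  have hinW : ∀ u ∈ closedBall (e x₀) s, e.symm u ∈ W := fun u hu =>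
    (hball (closedBall_subset_closedBall hss₀ hu)).2.2
  -- fixed points in the chart
  have hfixg : ∀ (a : H), ∀ u ∈ closedBall (e x₀) s, L.g a u = u ↔
      (a : Γ) • e.symm u = e.symm u := by
    intro a u hu
    obtain ⟨h1, h2⟩ := hLg a u hu
    constructor
    · intro h
      rw [h2] at h
      have h3 := congrArg e.symm h
      rwa [e.left_inv h1] at h3
    · intro h
      rw [h2, h, e.right_inv (htar u hu)]
  -- a point which is moved
  have hmove : ∃ y₀ : Fin (d + 1) → ℝ, dist y₀ (e x₀) ≤ s / 16 ∧ ∃ a, L.g a y₀ ≠ y₀ := by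
    obtain ⟨x, hx, a, ha, hax⟩ := hfix H hHo (e.source ∩ e ⁻¹' ball (e x₀) (s / 16))
      (e.isOpen_inter_preimage isOpen_ball) (by
        rintro x ⟨hx, hxb⟩
        have h1 : e x ∈ closedBall (e x₀) s := by
          rw [mem_preimage, mem_ball] at hxb
          rw [mem_closedBall]
          linarith
        have h2 := hinW _ h1
        rwa [e.left_inv hx] at h2) ⟨x₀, hxe, mem_ball_self (by positivity)⟩
    have hxb : dist (e x) (e x₀) < s / 16 := hx.2
    refine ⟨e x, hxb.le, ⟨a, ha⟩, fun h => hax ?_⟩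
    have h1 : e x ∈ closedBall (e x₀) s := by
      rw [mem_closedBall]
      linarith
    have h2 := (hfixg ⟨a, ha⟩ _ h1).1 h
    rwa [e.left_inv hx.1] at h2
  obtain ⟨y₀, hy₀, hy₀m⟩ := hmove
  -- a countable family of open subgroups
  obtain ⟨B, hB⟩ := (𝓝 (1 : Γ)).exists_antitone_basis
  have hN : ∀ n : ℕ, ∃ N : Subgroup Γ, IsOpen (N : Set Γ) ∧ (N : Set Γ) ⊆ B n := by
    intro n
    obtain ⟨N, h1, -, h2, -⟩ := hGR (B n) (hB.1.mem_of_mem trivial)
    exact ⟨N, h1, h2⟩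
  choose N hNo hNB using hN
  -- the Haar measure
  set ν : Measure H := Measure.haarMeasure (⊤ : TopologicalSpace.PositiveCompacts H) with hν
  have hνp : IsProbabilityMeasure ν := by
    constructor
    have := Measure.haarMeasure_self (K₀ := (⊤ : TopologicalSpace.PositiveCompacts H))
    simpa using this
  have hclosed : ∀ x : X, IsClosed (MulAction.stabilizer Γ x : Set Γ) := by
    intro x
    have h1 : (MulAction.stabilizer Γ x : Set Γ) = {a : Γ | a • x = x} := by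
      ext a
      rfl
    rw [h1]
    exact isClosed_eq (continuous_id.smul continuous_const) continuous_const
  obtain ⟨Bd⟩ := exists_LBC ν L E w (fun n => (N n).subgroupOf H)
    (fun n => by
      have h1 : (((N n).subgroupOf H : Subgroup H) : Set H) = Subtype.val ⁻¹' (N n : Set Γ) := rfl
      rw [h1]
      exact (hNo n).preimage continuous_subtype_val)
    (fun n => by
      apply eq_empty_of_forall_notMem
      intro u hu
      set I₀ : Set (Fin (d + 1) → ℝ) :=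
        {x | x ∈ L.U ∧ ∀ a ∈ (N n).subgroupOf H, L.g a x = x} with hI₀
      set I : Set (Fin (d + 1) → ℝ) := interior I₀ with hI
      have hIU : ∀ v ∈ I, v ∈ L.U ∧ ∀ a ∈ (N n).subgroupOf H, L.g a v = v := by
        intro v hv
        have h0 : v ∈ I₀ := interior_subset hv
        exact h0
      obtain ⟨x, hx, a, ha, hax⟩ := hfix (N n ⊓ H) ((hNo n).inter hHo) (e.source ∩ e ⁻¹' I)
        (e.isOpen_inter_preimage isOpen_interior) (by
          rintro x ⟨hx, hxI⟩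
          have h2 := hinW _ (hUcb _ (hIU _ hxI).1)
          rwa [e.left_inv hx] at h2)
        ⟨e.symm u, e.map_target (htar u (hUcb u (hIU u hu).1)), by
          rw [mem_preimage, e.right_inv (htar u (hUcb u (hIU u hu).1))]
          exact hu⟩
      obtain ⟨h3, h4⟩ := hIU _ hx.2
      have h5 := h4 ⟨a, ha.2⟩ ha.1
      have h6 := (hfixg ⟨a, ha.2⟩ _ (hUcb _ h3)).1 h5
      rw [e.left_inv hx.1] at h6
      exact hax h6)
    (fun z hz => by
      have hzc := hUcb z hz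
      rcases hst (e.symm z) (hinW z hzc) with h | h
      · right; right
        obtain ⟨n, -, hn⟩ := hB.1.mem_iff.1 (h.mem_nhds (one_mem _))
        refine ⟨n, fun a ha => ?_⟩
        rw [hfixg a z hzc]
        exact hn (hNB n ha)
      · right; left
        obtain ⟨Ξ, h1, h2⟩ := hdual _ (hclosed (e.symm z)) h
        refine ⟨Ξ, fun c g hg => h1 c g ?_, h2⟩
        rw [hfixg g z hzc] at hg
        exact hg)
    (fun z hz _ hmv => by
      have hzc := hUcb z hz
      obtain ⟨a, ha⟩ := hmv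
      obtain ⟨η, h1, h2, h3, h4⟩ := hfinE ((MulAction.stabilizer Γ (e.symm z)).subgroupOf H)
        ((hclosed (e.symm z)).preimage continuous_subtype_val) (by
          intro htop
          have h5 : a ∈ (MulAction.stabilizer Γ (e.symm z)).subgroupOf H := by
            rw [htop]
            trivial
          exact ha ((hfixg a z hzc).2 h5))
      exact ⟨η, h1, fun g hg => h2 g ((hfixg g z hzc).1 hg), h3, h4⟩)
    (Λ := fun (a : H) (u : Fin (d + 1) → ℝ) => (g₀ * (a : Γ)) • e.symm u)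
    (by
      rw [hcb]
      refine ContinuousOn.smul (f := fun q : H × (Fin (d + 1) → ℝ) => g₀ * (q.1 : Γ)) ?_ ?_
      · exact (continuous_const.mul (continuous_subtype_val.comp continuous_fst)).continuousOn
      · exact e.symm.continuousOn.comp continuousOn_snd fun q hq => htar _ hq.2)
    (by
      intro a a' u hu
      show (g₀ * (a : Γ)) • e.symm (L.g a' u) = (g₀ * ((a * a' : H) : Γ)) • e.symm u
      rw [(hLg a' u (hUcb u hu)).2, e.left_inv (hLg a' u (hUcb u hu)).1, smul_smul, mul_assoc]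
      rfl)
    (by
      intro u hu v hv huv
      have h1 := MulAction.injective _ huv
      exact e.symm.injOn (htar u (hUcb u hu)) (htar v (hUcb v hv)) h1)
    (thin_of_energy hOo.measurableSet hJ e hLe hLs hHo (fun g hg => (hHV hg).2) ν hs hst' hinV
      (fun u hu => hUcb u hu))
    (y₀ := y₀) (by rw [hLc, hLs']; exact hy₀) hy₀m
  exact no_LB2 hr Bd

/-- **The orbit dimension, abstract form.** -/
theorem main_P {Sm : Subgroup Γ → Prop} (hGR : SmallP Γ p D Sm) {R : Set X} (hRo : IsOpen R)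
    (hR : R ⊆ regPts (d + 1) X)
    (hE : ∀ x ∈ R, ∃ V ∈ 𝓝 x, ∃ O : Set Γ, IsOpen O ∧ O.Nonempty ∧ ∀ ε : ℝ≥0∞, 0 < ε → ∃ h : ℝ, 0 < h ∧ h ≤ 1 ∧
      ∫⁻ a in O, ∫⁻ y in V, Metric.ediam ((fun z => a • z) '' (ball y h ∩ V)) ^ (d + 1 + D)
        ∂(μH[((d + 1 : ℕ) : ℝ)] : Measure X) ∂μ ≤ ε * ENNReal.ofReal (h ^ d)) :
    R ⊆ closure {x | (∃ H : Subgroup Γ, IsOpen (H : Set Γ) ∧ ∀ᶠ y in 𝓝 x, ∀ a ∈ H, a • y = y) ∨
      (¬ IsOpen (MulAction.stabilizer Γ x : Set Γ) ∧ ¬ Sm (MulAction.stabilizer Γ x))} := by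
  intro x₀ hx₀
  rw [mem_closure_iff_nhds]
  intro O hO
  obtain ⟨W, hWO, hWo, hxW⟩ := _root_.mem_nhds_iff.1 (Filter.inter_mem hO (hRo.mem_nhds hx₀))
  by_contra hcon
  rw [not_nonempty_iff_eq_empty] at hcon
  have hno : ∀ x ∈ W, ¬ ((∃ H : Subgroup Γ, IsOpen (H : Set Γ) ∧
      ∀ᶠ y in 𝓝 x, ∀ a ∈ H, a • y = y) ∨
      (¬ IsOpen (MulAction.stabilizer Γ x : Set Γ) ∧ ¬ Sm (MulAction.stabilizer Γ x))) := by
    intro x hx h
    have h1 : x ∈ O ∩ {x | (∃ H : Subgroup Γ, IsOpen (H : Set Γ) ∧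
      ∀ᶠ y in 𝓝 x, ∀ a ∈ H, a • y = y) ∨
      (¬ IsOpen (MulAction.stabilizer Γ x : Set Γ) ∧ ¬ Sm (MulAction.stabilizer Γ x))} :=
      ⟨(hWO hx).1, h⟩
    rw [hcon] at h1
    exact h1
  apply local_P (d := d) (μ := μ) hGR hWo hxW (hR hx₀) (hE x₀ hx₀)
  · intro x hx
    by_contra h
    push Not at h
    exact hno x hx (Or.inr h)
  · intro N hN O' hO' hO'W ⟨x, hx⟩
    by_contra h
    push Not at h
    exact hno x (hO'W hx) (Or.inl ⟨N, hN, by
      filter_upwards [hO'.mem_nhds hx] with y hy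
      exact h y hy⟩)

end main

end Pool.Agent.RankS
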