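import Pool.Agent.HSF.K
import Pool.Agent.HSF.V

/-!
# The top class of an abelian group
-/

set_option autoImplicit false

open Finset Equiv

namespace Pool.Agent.RankS

open Pool.Agent.HSF Pool.Agent.TF

/-- The sum over the lattice paths of the coboundary of a cochain invariant under translations
vanishes. -/
theorem sum_dl_path {n : ℕ} {M : Type*} [AddCommGroup M] (g : List (Fin (n + 1) → ℤ) → M)
    (hg : ∀ (a : Fin (n + 1) → ℤ) (l : List (Fin (n + 1) → ℤ)), l.length = n + 1 →
      g (l.map (a + ·)) = g l) :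
    ∑ σ : Perm (Fin (n + 1)), (Perm.sign σ : ℤ) • Pool.Agent.TF.dl g (List.ofFn (kv 0 σ)) = 0 := by
  classical
  have h0 : ∑ σ : Perm (Fin (n + 1)), (Perm.sign σ : ℤ) • Pool.Agent.TF.dl g (List.ofFn (kv 0 σ)) =
      ∑ j : Fin (n + 2), (-1 : ℤ) ^ (j : ℕ) • ∑ σ : Perm (Fin (n + 1)),
        (Perm.sign σ : ℤ) • g (List.ofFn (kv 0 σ ∘ j.succAbove)) := by
    simp only [dl_ofFn, Finset.smul_sum]
    rw [Finset.sum_comm]
    refine Finset.sum_congr rfl fun j _ => Finset.sum_congr rfl fun σ _ => ?_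
    rw [smul_comm]
  have hfirst : ∑ σ : Perm (Fin (n + 1)),
      (Perm.sign σ : ℤ) • g (List.ofFn (kv 0 σ ∘ (0 : Fin (n + 2)).succAbove)) =
      (-1 : ℤ) ^ n • ∑ σ : Perm (Fin (n + 1)),
      (Perm.sign σ : ℤ) • g (List.ofFn (kv 0 σ ∘ (Fin.last (n + 1)).succAbove)) := by
    rw [← Equiv.sum_comp (Equiv.mulRight (finRotate (n + 1)))
      (fun σ : Perm (Fin (n + 1)) => (Perm.sign σ : ℤ) •
        g (List.ofFn (kv 0 σ ∘ (Fin.last (n + 1)).succAbove))), Finset.smul_sum]
    refine Finset.sum_congr rfl fun σ _ => ?_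
    simp only [Equiv.coe_mulRight]
    rw [smul_smul]
    have hs : (-1 : ℤ) ^ n * (Perm.sign (σ * finRotate (n + 1)) : ℤ) = (Perm.sign σ : ℤ) := by
      rw [Perm.sign_mul, sign_finRotate]
      push_cast
      rw [mul_comm, mul_assoc, ← pow_add, ← two_mul, pow_mul]
      norm_num
    rw [hs]
    congr 1
    have h1 := first_face (0 : Fin (n + 1) → ℤ) σ
    have h2 : List.ofFn (kv (0 : Fin (n + 1) → ℤ) σ ∘ (0 : Fin (n + 2)).succAbove) =
        (List.ofFn (kv 0 (σ * finRotate (n + 1)) ∘ (Fin.last (n + 1)).succAbove)).map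
          (((Pi.single (σ 0) 1 : Fin (n + 1) → ℤ)) + ·) := by
      rw [h1, List.map_ofFn]
      congr 1
      funext j
      funext x
      simp only [Function.comp_apply, kv, Pi.add_apply, Pi.zero_apply]
      ring
    rw [h2, hg _ _ (by simp)]
  rw [h0, Fin.sum_univ_succ]
  have hmid : ∀ j : Fin (n + 1), j ≠ Fin.last n →
      ∑ σ : Perm (Fin (n + 1)), (Perm.sign σ : ℤ) • g (List.ofFn (kv 0 σ ∘ j.succ.succAbove)) =
      0 := by
    intro j hj
    obtain ⟨j', hj'⟩ := Fin.exists_castSucc_eq.2 hj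
    have := inner_face g 0 j'
    rw [← hj']
    exact this
  rw [Finset.sum_eq_single (Fin.last n) (fun j _ hj => by rw [hmid j hj, smul_zero])
    (fun h => absurd (Finset.mem_univ _) h), hfirst]
  simp only [Fin.val_zero, pow_zero, one_smul, Fin.val_last, Fin.succ_last,
    pow_succ, mul_neg, mul_one, neg_smul, add_neg_cancel]

/-- The determinant of the differences of a lattice path. -/
theorem vol_path {n : ℕ} {k : Type*} [CommRing k] (σ : Perm (Fin n)) :
    vol n ((List.ofFn (kv (0 : Fin n → ℤ) σ)).map fun x i => ((x i : ℤ) : k)) =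
      ((Perm.sign σ : ℤ) : k) := by
  classical
  have h1 : (List.ofFn (kv (0 : Fin n → ℤ) σ)).map (fun x i => ((x i : ℤ) : k)) =
      pp (· + ·) 0 (List.ofFn fun j : Fin n => (Pi.single (σ j) 1 : Fin n → k)) := by
    rw [h25.pp_ofFn, List.map_ofFn, List.ofFn_succ]
    congr 1
    · funext i
      simp [kv]
    · congr 1
      funext j
      funext i
      simp only [Function.comp_apply, kv, Pi.zero_apply, Fin.val_succ, zero_add]
      rw [Finset.sum_apply]
      have h2 : ∀ x : Fin n, (Pi.single (σ x) 1 : Fin n → k) i = if x = σ.symm i then 1 else 0 := by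
        intro x
        rw [Pi.single_apply]
        congr 1
        rw [eq_iff_iff, eq_comm (a := i), ← Equiv.eq_symm_apply]
      simp only [h2]
      rw [Finset.sum_ite_eq' (Finset.univ.filter fun x => x ≤ j) (σ.symm i) (fun _ => (1 : k))]
      simp only [Finset.mem_filter, Finset.mem_univ, true_and]
      by_cases h3 : σ.symm i ≤ j
      · rw [if_pos h3, if_pos (by rw [Fin.le_def] at h3; omega)]
        simp
      · rw [if_neg h3, if_neg (by rw [Fin.le_def] at h3; omega)]
        simp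
  rw [h1, vol_pp]
  have h3 : (Matrix.of fun j : Fin n => (Pi.single (σ j) 1 : Fin n → k)) =
      σ.permMatrix k := by
    ext i j
    rw [Matrix.of_apply, Pi.single_apply, Equiv.Perm.permMatrix, PEquiv.toMatrix_apply]
    simp [eq_comm]
  rw [h3, Matrix.det_permutation]

/-- **The top class of a free abelian group.** -/
theorem nv_abelian {r : ℕ} (hr : 1 ≤ r) {k : Type*} [CommRing k] (c : List (Fin r → ℤ) → k)
    (lam : k) (hinv : ∀ (a : Fin r → ℤ) l, l.length = r → c (l.map (a + ·)) = c l)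
    (hd : ∀ l : List (Fin r → ℤ), l.length = r + 1 →
      Pool.Agent.HSF.dl c l = lam * vol r (l.map fun x i => ((x i : ℤ) : k))) :
    (r.factorial : k) * lam = 0 := by
  classical
  obtain ⟨n, rfl⟩ : ∃ n, r = n + 1 := ⟨r - 1, by omega⟩
  have h1 := sum_dl_path c hinv
  have h2 : ∀ σ : Perm (Fin (n + 1)), (Perm.sign σ : ℤ) •
      Pool.Agent.TF.dl c (List.ofFn (kv 0 σ)) = lam := by
    intro σ
    rw [← h30.dl_eq, hd _ (by simp), vol_path, zsmul_eq_mul, ← mul_assoc, mul_comm _ lam, mul_assoc]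
    have h3 : ((Perm.sign σ : ℤ) : k) * ((Perm.sign σ : ℤ) : k) = 1 := by
      rw [← Int.cast_mul, ← Units.val_mul, Int.units_mul_self]
      simp
    rw [h3, mul_one]
  simp only [h2] at h1
  rw [Finset.sum_const, Finset.card_univ, Fintype.card_perm, Fintype.card_fin, nsmul_eq_mul] at h1
  exact h1

end Pool.Agent.RankS
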