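import Pool.Agent.RankS.FinalP

/-!
# Actions of p-adic Lie groups: the dimension of the orbits

Let `R` be an open set of regular points of the metric space `X`, of dimension `n = d + 1`, and let
the `p`-adic Lie group `Γ` act continuously on `X`. The weaker the condition on the oscillation of
the homeomorphisms, the larger the dimension of the orbits that it permits.
-/

set_option autoImplicit false

open Set MeasureTheory Metric Filter Topology Module
open scoped Manifold ContDiff ENNReal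

namespace Pool.Agent.Results.MP_afaf30_gt.OrbitDimension

open Pool.Agent.Helper3.HS

/-- The dimension of the tangent space at `1` of a subset `K` of a `p`-adic Lie group `Γ`: the
dimension of the span of the tangent cone at `1` of `K`, in the chart of `Γ` at `1`. -/
noncomputable def tdim {p r : ℕ} [Fact p.Prime] {Γ : Type*} [TopologicalSpace Γ]
    [ChartedSpace (Fin r → ℚ_[p]) Γ] [Group Γ] (K : Set Γ) : ℕ :=
  finrank ℚ_[p] (Submodule.span ℚ_[p] (tangentConeAt ℚ_[p]
    ((extChartAt 𝓘(ℚ_[p], Fin r → ℚ_[p]) (1 : Γ)).symm ⁻¹' K)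
    (extChartAt 𝓘(ℚ_[p], Fin r → ℚ_[p]) (1 : Γ) 1)))

/-- Let `n = d + 1` and let `R` be an open set of regular points of the metric space `X`. Let `Γ` be
a Lie group over `ℚ_p` of dimension `r`, with Haar measure `μ`, acting continuously on `X`. Suppose
that every `x ∈ R` has a neighbourhood `V` and a nonempty open set `O` of elements of `Γ` such that
for every `ε > 0` there is `h ∈ (0, 1]` with
`∫_O ∫_V diam (a (B(y, h) ∩ V)) ^ (n + D) dH^n(y) dμ(a) ≤ ε * h ^ (n - 1)`. Then every nonempty open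
subset of `R` contains a point `x` such that some open subgroup of `Γ` fixes all points near `x`, or
the stabiliser of `x` is not open and its tangent space at `1` has dimension at least `r - D`. -/
theorem result {d D p r : ℕ} [Fact p.Prime] {Γ : Type*} [TopologicalSpace Γ]
    [ChartedSpace (Fin r → ℚ_[p]) Γ] [Group Γ] [LieGroup 𝓘(ℚ_[p], Fin r → ℚ_[p]) ω Γ]
    [MeasurableSpace Γ] [BorelSpace Γ] {μ : Measure Γ} [μ.IsHaarMeasure]
    {X : Type*} [MetricSpace X] [MeasurableSpace X] [BorelSpace X] [MulAction Γ X]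
    [ContinuousSMul Γ X] {R : Set X} (hRo : IsOpen R) (hR : R ⊆ regPts (d + 1) X)
    (hE : ∀ x ∈ R, ∃ V ∈ 𝓝 x, ∃ O : Set Γ, IsOpen O ∧ O.Nonempty ∧ ∀ ε : ℝ≥0∞, 0 < ε →
      ∃ h : ℝ, 0 < h ∧ h ≤ 1 ∧
      ∫⁻ a in O, ∫⁻ y in V, Metric.ediam ((fun z => a • z) '' (ball y h ∩ V)) ^ (d + 1 + D)
        ∂(μH[((d + 1 : ℕ) : ℝ)] : Measure X) ∂μ ≤ ε * ENNReal.ofReal (h ^ d)) :
    ∀ W : Set X, IsOpen W → W ⊆ R → W.Nonempty → ∃ x ∈ W,
      (∃ H : Subgroup Γ, IsOpen (H : Set Γ) ∧ ∀ᶠ y in 𝓝 x, ∀ a ∈ H, a • y = y) ∨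
      (¬ IsOpen (MulAction.stabilizer Γ x : Set Γ) ∧
        r ≤ tdim (p := p) (r := r) (MulAction.stabilizer Γ x : Set Γ) + D) := by
  intro W hWo hWR hWn
  obtain ⟨x₀, hx₀⟩ := hWn
  have h1 := Pool.Agent.RankS.final_P (p := p) (r := r) (μ := μ) hRo hR hE (hWR hx₀)
  rw [mem_closure_iff_nhds] at h1
  obtain ⟨x, hxW, hx⟩ := h1 W (hWo.mem_nhds hx₀)
  exact ⟨x, hxW, hx⟩

end Pool.Agent.Results.MP_afaf30_gt.OrbitDimension
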