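import Pool.Agent.HSF.EC
import Pool.Agent.HSF.L
import Pool.Agent.Helper34.RK.Null
import Pool.Agent.Helper94.HS3.Osc3

/-!
# Small energy gives thin slices

The energy of the elements near the identity of a locally compact group, and the averages over the
orbits of a compact open subgroup.
-/

set_option autoImplicit false
set_option linter.unusedSectionVars false
set_option linter.unusedVariables false

open Set MeasureTheory Metric Filter Topology
open scoped NNReal ENNReal

namespace Pool.Agent.RankS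

open Pool.Agent.Helper3.HS Pool.Agent.HSF Pool.Agent.Helper83.RK

/-! ### The Haar measure of a compact group -/

section haar

variable {G : Type*} [Group G] [TopologicalSpace G] [IsTopologicalGroup G] [CompactSpace G]
  [MeasurableSpace G] [BorelSpace G]

theorem eq_of_left (ν ν' : Measure G) [ν.IsHaarMeasure] [IsProbabilityMeasure ν]
    [ν'.IsMulLeftInvariant] [IsProbabilityMeasure ν'] : ν' = ν := by
  have h1 := Measure.isMulInvariant_eq_smul_of_compactSpace ν' ν
  have h2 : ν' univ = (Measure.haarScalarFactor ν' ν • ν) univ := by rw [← h1]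
  rw [Measure.smul_apply, measure_univ, measure_univ] at h2
  have h3 : Measure.haarScalarFactor ν' ν = 1 := by
    have h4 : (1 : ℝ≥0∞) = ((Measure.haarScalarFactor ν' ν : ℝ≥0) : ℝ≥0∞) := by
      rw [h2, ENNReal.smul_def, smul_eq_mul, mul_one]
    exact_mod_cast h4.symm
  rw [h1, h3, one_smul]

theorem haar_right (ν : Measure G) [ν.IsHaarMeasure] [IsProbabilityMeasure ν] :
    ν.IsMulRightInvariant := by
  constructor
  intro g
  have hm : Measurable fun x : G => x * g := (continuous_mul_const g).measurable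
  have hL : (Measure.map (· * g) ν).IsMulLeftInvariant := by
    constructor
    intro h
    have hm' : Measurable fun x : G => h * x := (continuous_const_mul h).measurable
    rw [Measure.map_map hm' hm]
    have h1 : ((fun x : G => h * x) ∘ fun x => x * g) = (fun x : G => x * g) ∘ fun x => h * x := by
      funext x
      simp only [Function.comp_apply, mul_assoc]
    rw [h1, ← Measure.map_map hm hm', map_mul_left_eq_self]
  have hP : IsProbabilityMeasure (Measure.map (· * g) ν) :=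
    Measure.isProbabilityMeasure_map hm.aemeasurable
  exact eq_of_left ν _

theorem haar_inv (ν : Measure G) [ν.IsHaarMeasure] [IsProbabilityMeasure ν] : ν.inv = ν := by
  have hR := haar_right ν
  have hP : IsProbabilityMeasure ν.inv := by
    unfold Measure.inv
    exact Measure.isProbabilityMeasure_map continuous_inv.measurable.aemeasurable
  exact eq_of_left ν _

theorem integral_inv_haar {E : Type*} [NormedAddCommGroup E] [NormedSpace ℝ E] (ν : Measure G)
    [ν.IsHaarMeasure] [IsProbabilityMeasure ν] (f : G → E) : ∫ a, f a⁻¹ ∂ν = ∫ a, f a ∂ν := by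
  have h1 : ν.IsInvInvariant := ⟨haar_inv ν⟩
  exact integral_inv_eq_self f ν

end haar

section comap

variable {Γ : Type*} [Group Γ] [TopologicalSpace Γ] [IsTopologicalGroup Γ] [MeasurableSpace Γ]
  [BorelSpace Γ]

/-- Integrals over a compact open subgroup. -/
theorem exists_lintegral_le (μ : Measure Γ) [μ.IsHaarMeasure] {H : Subgroup Γ}
    (hH : IsOpen (H : Set Γ)) [CompactSpace H] (ν : Measure H) [ν.IsHaarMeasure]
    [IsProbabilityMeasure ν] : ∃ P : ℝ≥0∞, P ≠ ∞ ∧ ∀ f : Γ → ℝ≥0∞,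
      ∫⁻ a : H, f a ∂ν ≤ P * ∫⁻ a in (H : Set Γ), f a ∂μ := by
  have hemb : IsOpenEmbedding (H.subtype : H → Γ) := hH.isOpenEmbedding_subtypeVal
  have hHaar : (μ.comap (H.subtype : H → Γ)).IsHaarMeasure :=
    Measure.IsHaarMeasure.comap (mH := inferInstance) μ hemb
  obtain ⟨c, h1⟩ : ∃ c : ℝ≥0, ν = c • μ.comap (H.subtype : H → Γ) :=
    ⟨_, Measure.isMulInvariant_eq_smul_of_compactSpace ν (μ.comap (H.subtype : H → Γ))⟩
  refine ⟨c, ENNReal.coe_ne_top, fun f => ?_⟩
  have h2 : ∫⁻ a : H, f a ∂(μ.comap (H.subtype : H → Γ)) = ∫⁻ a in (H : Set Γ), f a ∂μ :=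
    lintegral_subtype_comap hH.measurableSet f
  have h3 : ∫⁻ a : H, f a ∂ν = ∫⁻ a : H, f a ∂(c • μ.comap (H.subtype : H → Γ)) := by
    rw [← h1]
  rw [h3, lintegral_smul_measure, h2, ENNReal.smul_def, smul_eq_mul]

/-- Integrals over a coset of a compact open subgroup. -/
theorem exists_lintegral_coset_le (μ : Measure Γ) [μ.IsHaarMeasure] {H : Subgroup Γ}
    (hH : IsOpen (H : Set Γ)) [CompactSpace H] (ν : Measure H) [ν.IsHaarMeasure]
    [IsProbabilityMeasure ν] {g₀ : Γ} {O : Set Γ} (hO : MeasurableSet O)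
    (hHO : ∀ a ∈ H, g₀ * a ∈ O) : ∃ P : ℝ≥0∞, P ≠ ∞ ∧ ∀ f : Γ → ℝ≥0∞,
      ∫⁻ a : H, f (g₀ * a) ∂ν ≤ P * ∫⁻ a in O, f a ∂μ := by
  obtain ⟨P, hPt, hP⟩ := exists_lintegral_le μ hH ν
  refine ⟨P, hPt, fun f => (hP fun a => f (g₀ * a)).trans (mul_le_mul_right ?_ P)⟩
  rw [← lintegral_indicator hH.measurableSet, ← lintegral_indicator hO,
    ← lintegral_mul_left_eq_self (O.indicator f) g₀]
  apply lintegral_mono
  intro a
  by_cases ha : a ∈ (H : Set Γ)
  · rw [indicator_of_mem ha]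
    simp only
    rw [indicator_of_mem (hHO a ha)]
  · rw [indicator_of_notMem ha]
    exact zero_le

end comap

/-! ### The slice variation of the action in a chart -/

/-- The slice variation is controlled by an integral of the oscillation. -/
theorem GV_le_osc' {d m' e : ℕ} {u₀ : Fin (d + 1) → ℝ} {r : ℝ} (hr : 0 < r) {N : ℕ} (hN : 0 < N)
    {f : (Fin (d + 1) → ℝ) → (Fin m' → ℝ)} {g : (Fin (d + 1) → ℝ) → ℝ≥0∞} (hg : Measurable g)
    (h : ∀ u ∈ closedBall u₀ r, ∀ v ∈ closedBall u₀ r, ∀ w ∈ closedBall u₀ r,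
      dist u v ≤ 2 * r / N → dist u w ≤ 2 * r / N → edist (f v) (f w) ≤ g u) :
    GV e f u₀ r N ≤ (d + 1) * (ENNReal.ofReal ((N / (2 * r)) ^ d) *
      ∫⁻ x in closedBall u₀ r, g x ^ e) := by
  have hN' : (0 : ℝ) < N := by exact_mod_cast hN
  have hh : 0 < 2 * r / N := by positivity
  have hsm : ∀ i, Measurable (fun q : ℝ × (Fin d → ℝ) => slc i q.1 q.2) := fun i =>
    (continuous_slc i).measurable
  set κ : ℝ≥0∞ := ENNReal.ofReal ((N / (2 * r)) ^ d) with hκ
  have hκt : κ ≠ ∞ := ENNReal.ofReal_ne_top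
  unfold GV
  have key : ∀ i : Fin (d + 1), ∫⁻ t in Icc (u₀ i - r) (u₀ i + r),
      ∑ c : Fin d → Fin N, gDiam f u₀ r N i t (fun k => (c k : ℕ)) ^ e ≤
      κ * ∫⁻ x in closedBall u₀ r, g x ^ e := by
    intro i
    have hpt : ∀ t ∈ Icc (u₀ i - r) (u₀ i + r),
        ∑ c : Fin d → Fin N, gDiam f u₀ r N i t (fun k => (c k : ℕ)) ^ e ≤
        κ * ∫⁻ w in fullSlice u₀ r i, g (slc i t w) ^ e := by
      intro t ht
      have hcell : ∀ c : Fin d → Fin N, gDiam f u₀ r N i t (fun k => (c k : ℕ)) ^ e ≤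
          κ * ∫⁻ w in cell (corner u₀ r i) (2 * r / N) (fun k => (c k : ℕ)),
            g (slc i t w) ^ e := by
        intro c
        set x := gDiam f u₀ r N i t (fun k => (c k : ℕ)) with hx
        set Q : Set (Fin d → ℝ) := cell (corner u₀ r i) (2 * r / N) (fun k => (c k : ℕ)) with hQ
        have hsub : Q ⊆ fullSlice u₀ r i := cell_subset hr i hN (fun k => (c k).2)
        have hmem : ∀ w ∈ Q, slc i t w ∈ closedBall u₀ r := fun w hw =>
          slc_mem_closedBall hr ht (hsub hw)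
        have hdQ : ∀ w ∈ Q, ∀ w' ∈ Q, dist (slc i t w) (slc i t w') ≤ 2 * r / N := by
          intro w hw w' hw'
          have h1 : dist w w' ≤ 2 * r / N := by
            rw [dist_pi_le_iff hh.le]
            intro k
            rw [hQ, cell, mem_Icc, Pi.le_def, Pi.le_def] at hw hw'
            have a1 := hw.1 k
            have a2 := hw.2 k
            have a3 := hw'.1 k
            have a4 := hw'.2 k
            try simp only at a1 a2 a3 a4
            rw [Real.dist_eq, abs_le]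
            constructor <;> linarith
          have h2 := edist_slc i t w w'
          rw [edist_dist, edist_dist] at h2
          have h3 := (ENNReal.ofReal_eq_ofReal_iff dist_nonneg dist_nonneg).mp h2
          rw [h3]
          exact h1
        have hle : ∀ w ∈ Q, x ≤ g (slc i t w) := by
          intro w hw
          apply Metric.ediam_le
          rintro _ ⟨v, hv, rfl⟩ _ ⟨v', hv', rfl⟩
          exact h _ (hmem w hw) _ (hmem v hv) _ (hmem v' hv') (hdQ w hw v hv) (hdQ w hw v' hv')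
        have hvol : volume Q = ENNReal.ofReal ((2 * r / N) ^ d) := by
          rw [hQ, cell, Real.volume_Icc_pi]
          have : ∀ k : Fin d, corner u₀ r i k + 2 * r / N * ((c k : ℕ) : ℝ) + 2 * r / N -
              (corner u₀ r i k + 2 * r / N * ((c k : ℕ) : ℝ)) = 2 * r / N := fun k => by ring
          simp_rw [this]
          rw [Finset.prod_const, Finset.card_univ, Fintype.card_fin, ENNReal.ofReal_pow hh.le]
        have hQm : MeasurableSet Q := by rw [hQ, cell]; exact measurableSet_Icc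
        have h1 : x ^ e * volume Q ≤ ∫⁻ w in Q, g (slc i t w) ^ e := by
          rw [← setLIntegral_const]
          exact setLIntegral_mono' hQm (fun w hw => pow_le_pow_left₀ zero_le (hle w hw) e)
        have h2 : κ * volume Q = 1 := by
          rw [hvol, hκ, ← ENNReal.ofReal_mul (by positivity), ← mul_pow]
          have : (N : ℝ) / (2 * r) * (2 * r / N) = 1 := by field_simp
          rw [this, one_pow, ENNReal.ofReal_one]
        calc x ^ e = κ * (x ^ e * volume Q) := by
              rw [mul_left_comm, h2, mul_one]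
          _ ≤ _ := by gcongr
      refine (Finset.sum_le_sum fun c _ => hcell c).trans ?_
      rw [← Finset.mul_sum]
      gcongr
      exact sum_cell_le hr i hN _
    calc ∫⁻ t in Icc (u₀ i - r) (u₀ i + r),
        ∑ c : Fin d → Fin N, gDiam f u₀ r N i t (fun k => (c k : ℕ)) ^ e
        ≤ ∫⁻ t in Icc (u₀ i - r) (u₀ i + r), κ * ∫⁻ w in fullSlice u₀ r i, g (slc i t w) ^ e :=
          setLIntegral_mono' measurableSet_Icc hpt
      _ = κ * ∫⁻ t in Icc (u₀ i - r) (u₀ i + r), ∫⁻ w in fullSlice u₀ r i,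
          g (slc i t w) ^ e := by
          rw [lintegral_const_mul' _ _ hκt]
      _ ≤ _ := by
          gcongr
          exact lintegral_slices hr i (hg.pow_const e)
  refine (Finset.sum_le_sum fun i _ => key i).trans ?_
  rw [Finset.sum_const, Finset.card_univ, Fintype.card_fin, nsmul_eq_mul]
  push_cast
  exact le_rfl

section energy

variable {d q : ℕ} {Γ : Type*} [Group Γ] [TopologicalSpace Γ] [IsTopologicalGroup Γ]
  [MeasurableSpace Γ] [BorelSpace Γ] {μ : Measure Γ} [μ.IsHaarMeasure]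
  {X : Type*} [MetricSpace X] [MeasurableSpace X] [BorelSpace X] [MulAction Γ X]

theorem GV_energy {V : Set X} {O : Set Γ} (hOm : MeasurableSet O)
    (hJ : ∀ ε : ℝ≥0∞, 0 < ε → ∃ h : ℝ, 0 < h ∧ h ≤ 1 ∧ ∫⁻ a in O,
      ∫⁻ y in V, Metric.ediam ((fun z => a • z) '' (ball y h ∩ V)) ^ q
        ∂(μH[((d + 1 : ℕ) : ℝ)] : Measure X) ∂μ ≤ ε * ENNReal.ofReal (h ^ d))
    (e : OpenPartialHomeomorph X (Fin (d + 1) → ℝ)) {C : ℝ≥0}
    (hC : LipschitzOnWith C e e.source) (hC' : LipschitzOnWith C e.symm e.target)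
    {H : Subgroup Γ} (hHo : IsOpen (H : Set Γ)) [CompactSpace H] {g₀ : Γ}
    (hHO : ∀ a ∈ H, g₀ * a ∈ O)
    (ν : Measure H) [ν.IsHaarMeasure] [IsProbabilityMeasure ν]
    {x₀ : Fin (d + 1) → ℝ} {r : ℝ} (hr : 0 < r) (hBt : closedBall x₀ r ⊆ e.target)
    (hBW : ∀ u ∈ closedBall x₀ r, e.symm u ∈ V) {m' : ℕ}
    (Φ : H → (Fin (d + 1) → ℝ) → (Fin m' → ℝ)) {K' : ℝ≥0}
    (hΦ : ∀ (a : H), ∀ u ∈ closedBall x₀ r, ∀ v ∈ closedBall x₀ r,
      edist (Φ a u) (Φ a v) ≤ K' * edist ((g₀ * (a : Γ)) • e.symm u) ((g₀ * (a : Γ)) • e.symm v))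
    {η : ℝ≥0∞} (hη : 0 < η) :
    ∃ N : ℕ, 0 < N ∧ ∫⁻ a, GV q (Φ a) x₀ r N ∂ν ≤ η := by
  classical
  obtain ⟨P, hPt, hP⟩ := exists_lintegral_coset_le μ hHo ν hOm hHO
  set B := closedBall x₀ r with hBdef
  have hBm : MeasurableSet B := measurableSet_closedBall
  have hne : x₀ ∈ B := mem_closedBall_self hr.le
  set ψ : (Fin (d + 1) → ℝ) → X := B.piecewise e.symm (fun _ => e.symm x₀) with hψ
  have hψm : Measurable ψ := ContinuousOn.measurable_piecewise
    (e.symm.continuousOn.mono hBt) continuousOn_const hBm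
  have hψB : ∀ u ∈ B, ψ u = e.symm u := fun u hu => piecewise_eq_of_mem _ _ _ hu
  -- the measure comparison
  have hmeas : (μH[((d + 1 : ℕ) : ℝ)].restrict B).map ψ ≤
      ((C : ℝ≥0∞) ^ ((d + 1 : ℕ) : ℝ)) • (μH[((d + 1 : ℕ) : ℝ)] : Measure X).restrict V := by
    rw [Measure.le_iff]
    intro A hA
    rw [Measure.map_apply hψm hA, Measure.restrict_apply (hψm hA), Measure.smul_apply,
      Measure.restrict_apply hA, smul_eq_mul]
    have hsub : ψ ⁻¹' A ∩ B ⊆ e '' (A ∩ V ∩ e.source) := by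
      rintro u ⟨huA, huB⟩
      rw [mem_preimage, hψB u huB] at huA
      exact ⟨e.symm u, ⟨⟨huA, hBW u huB⟩, e.map_target (hBt huB)⟩, e.right_inv (hBt huB)⟩
    refine (measure_mono hsub).trans ?_
    refine ((hC.mono inter_subset_right).hausdorffMeasure_image_le (Nat.cast_nonneg _)).trans ?_
    exact mul_le_mul' le_rfl (measure_mono inter_subset_left)
  have hCr : ((C : ℝ≥0∞) ^ ((d + 1 : ℕ) : ℝ)) = (C : ℝ≥0∞) ^ (d + 1) := ENNReal.rpow_natCast _ _
  rw [hCr] at hmeas
  -- the constants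
  obtain ⟨c, hc⟩ : ∃ c : ℝ, c = (C : ℝ) := ⟨_, rfl⟩
  have hc0 : 0 ≤ c := by rw [hc]; exact NNReal.coe_nonneg C
  set K : ℝ := (2 * r * c + 1) / (2 * r) with hK
  have hK0 : 0 < K := by positivity
  set A : ℝ≥0∞ := (d + 1) * (ENNReal.ofReal (K ^ d) *
    ((K' : ℝ≥0∞) ^ (q) * (C : ℝ≥0∞) ^ (d + 1))) * P with hA
  have hAt : A ≠ ∞ := by
    apply ENNReal.mul_ne_top _ hPt
    apply ENNReal.mul_ne_top
    · exact ENNReal.add_ne_top.mpr ⟨ENNReal.natCast_ne_top d, ENNReal.one_ne_top⟩
    · apply ENNReal.mul_ne_top ENNReal.ofReal_ne_top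
      exact ENNReal.mul_ne_top (ENNReal.pow_ne_top ENNReal.coe_ne_top)
        (ENNReal.pow_ne_top ENNReal.coe_ne_top)
  have hA1 : A + 1 ≠ 0 := by simp
  have hA1t : A + 1 ≠ ∞ := ENNReal.add_ne_top.mpr ⟨hAt, ENNReal.one_ne_top⟩
  obtain ⟨h, h0, h1', hle⟩ := hJ (η / (A + 1)) (ENNReal.div_pos hη.ne' hA1t)
  set N : ℕ := ⌊2 * r * c / h⌋₊ + 1 with hN
  have hNpos : 0 < N := Nat.succ_pos _
  have hN' : (0 : ℝ) < N := by exact_mod_cast hNpos
  have hN1 : 2 * r * c / h < N := by
    rw [hN]; push_cast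
    exact Nat.lt_floor_add_one _
  have hN2 : (N : ℝ) ≤ (2 * r * c + 1) / h := by
    rw [hN]; push_cast
    have h3 : (⌊2 * r * c / h⌋₊ : ℝ) ≤ 2 * r * c / h := Nat.floor_le (by positivity)
    have h4 : 1 ≤ 1 / h := by rw [le_div_iff₀ h0]; linarith
    rw [add_div]
    linarith
  refine ⟨N, hNpos, ?_⟩
  set E : Γ → ℝ≥0∞ := fun a => ∫⁻ y in V,
    Metric.ediam ((fun z => a • z) '' (ball y h ∩ V)) ^ (q)
      ∂(μH[((d + 1 : ℕ) : ℝ)] : Measure X) with hE
  set κ : ℝ≥0∞ := ENNReal.ofReal ((N / (2 * r)) ^ d) with hκ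
  set M : ℝ≥0∞ := (d + 1) * (κ * ((K' : ℝ≥0∞) ^ (q) * (C : ℝ≥0∞) ^ (d + 1))) with hM
  have hMt : M ≠ ∞ := by
    apply ENNReal.mul_ne_top
    · exact ENNReal.add_ne_top.mpr ⟨ENNReal.natCast_ne_top d, ENNReal.one_ne_top⟩
    · apply ENNReal.mul_ne_top ENNReal.ofReal_ne_top
      exact ENNReal.mul_ne_top (ENNReal.pow_ne_top ENNReal.coe_ne_top)
        (ENNReal.pow_ne_top ENNReal.coe_ne_top)
  have hone : ∀ a : H, GV (q) (Φ a) x₀ r N ≤ M * E (g₀ * (a : Γ)) := by
    intro a
    set gX : X → ℝ≥0∞ := fun y =>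
      Metric.ediam ((fun z => (g₀ * (a : Γ)) • z) '' (ball y h ∩ V))
      with hgX
    have hgXm : Measurable gX := measurable_osc _ V h
    set g : (Fin (d + 1) → ℝ) → ℝ≥0∞ := fun u => K' * gX (ψ u) with hg
    have hgm : Measurable g := (hgXm.comp hψm).const_mul _
    have hosc : ∀ u ∈ closedBall x₀ r, ∀ v ∈ closedBall x₀ r, ∀ w ∈ closedBall x₀ r,
        dist u v ≤ 2 * r / N → dist u w ≤ 2 * r / N →
        edist (Φ a v) (Φ a w) ≤ g u := by
      intro u hu v hv w hw huv huw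
      have hball' : ∀ v ∈ B, dist u v ≤ 2 * r / N → e.symm v ∈ ball (ψ u) h ∩ V := by
        intro v hv huv
        refine ⟨?_, hBW v hv⟩
        rw [mem_ball, hψB u hu, dist_comm]
        have h3 : dist (e.symm u) (e.symm v) ≤ c * dist u v := by
          rw [hc]
          exact hC'.dist_le_mul u (hBt hu) v (hBt hv)
        have h4 : c * dist u v ≤ c * (2 * r / N) := by gcongr
        have h5 : c * (2 * r / N) < h := by
          rw [div_lt_iff₀ h0] at hN1
          have h6 : c * (2 * r / N) = 2 * r * c / N := by ring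
          rw [h6, div_lt_iff₀ hN']
          linarith
        linarith
      refine (hΦ a v hv w hw).trans ?_
      rw [hg]
      simp only
      gcongr
      exact Metric.edist_le_ediam_of_mem ⟨e.symm v, hball' v hv huv, rfl⟩
        ⟨e.symm w, hball' w hw huw, rfl⟩
    have hmain := GV_le_osc' (e := q) hr hNpos hgm hosc
    refine hmain.trans ?_
    have hint : ∫⁻ u in B, g u ^ (q) ≤
        (K' : ℝ≥0∞) ^ (q) * ((C : ℝ≥0∞) ^ (d + 1) * E (g₀ * (a : Γ))) := by
      have e1 : ∫⁻ u in B, g u ^ (q) =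
          (K' : ℝ≥0∞) ^ (q) * ∫⁻ u in B, gX (ψ u) ^ (q) := by
        rw [← lintegral_const_mul' _ _ (ENNReal.pow_ne_top ENNReal.coe_ne_top)]
        congr 1
        funext u
        rw [hg, mul_pow]
      rw [e1]
      gcongr
      rw [← hausdorff_eq_volume]
      have e2 : ∫⁻ u in B, gX (ψ u) ^ (q) ∂(μH[((d + 1 : ℕ) : ℝ)]) =
          ∫⁻ y, gX y ^ (q) ∂((μH[((d + 1 : ℕ) : ℝ)].restrict B).map ψ) := by
        rw [lintegral_map (hgXm.pow_const _) hψm]
      rw [e2]
      refine (lintegral_mono' hmeas le_rfl).trans ?_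
      rw [lintegral_smul_measure, smul_eq_mul]
    calc ((d : ℝ≥0∞) + 1) * (κ * ∫⁻ u in B, g u ^ (q))
        ≤ (d + 1) * (κ * ((K' : ℝ≥0∞) ^ (q) * ((C : ℝ≥0∞) ^ (d + 1)
          * E (g₀ * (a : Γ))))) := by gcongr
      _ = M * E (g₀ * (a : Γ)) := by rw [hM]; ring
  have hNK : κ * ENNReal.ofReal (h ^ d) ≤ ENNReal.ofReal (K ^ d) := by
    rw [hκ, ← ENNReal.ofReal_mul (by positivity), ← mul_pow]
    apply ENNReal.ofReal_le_ofReal
    apply pow_le_pow_left₀ (by positivity)
    rw [hK, div_mul_eq_mul_div]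
    apply div_le_div_of_nonneg_right _ (by positivity)
    rw [le_div_iff₀ h0] at hN2
    exact hN2
  calc ∫⁻ a, GV (q) (Φ a) x₀ r N ∂ν
      ≤ ∫⁻ a : H, M * E (g₀ * (a : Γ)) ∂ν := lintegral_mono hone
    _ = M * ∫⁻ a : H, E (g₀ * (a : Γ)) ∂ν := lintegral_const_mul' _ _ hMt
    _ ≤ M * (P * ∫⁻ a in O, E a ∂μ) := by
        gcongr
        exact hP E
    _ ≤ M * (P * (η / (A + 1) * ENNReal.ofReal (h ^ d))) := by gcongr
    _ = (d + 1) * ((κ * ENNReal.ofReal (h ^ d)) *
        ((K' : ℝ≥0∞) ^ (q) * (C : ℝ≥0∞) ^ (d + 1))) * P * (η / (A + 1)) := by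
        rw [hM]; ring
    _ ≤ A * (η / (A + 1)) := by
        rw [hA]
        gcongr
    _ ≤ (A + 1) * (η / (A + 1)) := by gcongr; exact le_self_add
    _ = η := ENNReal.mul_div_cancel hA1 hA1t

end energy

/-! ### Thin slices -/

section thin

open Pool.Agent.HSF.h25

/-- The product of two coordinate spaces. -/
theorem addHaar_prod_null {k l : ℕ} {N : Set ((Fin k → ℝ) × (Fin l → ℝ))}
    {S : Set (Fin (k + l) → ℝ)} (hS : volume S = 0) (hN : ∀ z ∈ N, Fin.append z.1 z.2 ∈ S) :
    (Measure.addHaar : Measure ((Fin k → ℝ) × (Fin l → ℝ))) N = 0 := by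
  have h1 : MeasurePreserving (MeasurableEquiv.sumPiEquivProdPi (fun _ : Fin k ⊕ Fin l => ℝ))
      volume volume := volume_measurePreserving_sumPiEquivProdPi _
  have h2 : MeasurePreserving (MeasurableEquiv.piCongrLeft (fun _ : Fin (k + l) => ℝ)
      (finSumFinEquiv : Fin k ⊕ Fin l ≃ Fin (k + l))) volume volume :=
    volume_measurePreserving_piCongrLeft _ _
  have h3 := h2.comp (h1.symm _)
  set φ := (MeasurableEquiv.sumPiEquivProdPi (fun _ : Fin k ⊕ Fin l => ℝ)).symm.trans
    (MeasurableEquiv.piCongrLeft (fun _ : Fin (k + l) => ℝ)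
      (finSumFinEquiv : Fin k ⊕ Fin l ≃ Fin (k + l))) with hφ
  have hφm : MeasurePreserving φ volume volume := h3
  have happ : ∀ y u, φ (y, u) = Fin.append y u := by
    intro y u
    funext j
    refine Fin.addCases (fun a => ?_) (fun b => ?_) j
    · rw [Fin.append_left]
      have := Equiv.piCongrLeft_apply_apply (fun _ : Fin (k + l) => ℝ)
        (finSumFinEquiv : Fin k ⊕ Fin l ≃ Fin (k + l))
        ((MeasurableEquiv.sumPiEquivProdPi (fun _ : Fin k ⊕ Fin l => ℝ)).symm (y, u)) (Sum.inl a)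
      rw [finSumFinEquiv_apply_left] at this
      exact this
    · rw [Fin.append_right]
      have := Equiv.piCongrLeft_apply_apply (fun _ : Fin (k + l) => ℝ)
        (finSumFinEquiv : Fin k ⊕ Fin l ≃ Fin (k + l))
        ((MeasurableEquiv.sumPiEquivProdPi (fun _ : Fin k ⊕ Fin l => ℝ)).symm (y, u)) (Sum.inr b)
      rw [finSumFinEquiv_apply_right] at this
      exact this
  have h4 : (volume : Measure ((Fin k → ℝ) × (Fin l → ℝ))) (φ ⁻¹' S) = 0 := by
    rw [hφm.measure_preimage_equiv]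
    exact hS
  have h5 : (volume : Measure ((Fin k → ℝ) × (Fin l → ℝ))) N = 0 := by
    refine measure_mono_null (fun z hz => ?_) h4
    show φ z ∈ S
    have h6 := happ z.1 z.2
    rw [Prod.mk.eta] at h6
    rw [h6]
    exact hN z hz
  have hvol : (volume : Measure ((Fin k → ℝ) × (Fin l → ℝ))).IsAddHaarMeasure := by
    rw [Measure.volume_eq_prod]
    exact Measure.prod.instIsAddHaarMeasure _ _
  have h7 : (Measure.addHaar : Measure ((Fin k → ℝ) × (Fin l → ℝ))) =
      Measure.addHaarScalarFactor (Measure.addHaar : Measure ((Fin k → ℝ) × (Fin l → ℝ))) volume •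
        volume := Measure.isAddLeftInvariant_eq_smul _ _
  rw [h7, Measure.smul_apply, h5, smul_zero]

variable {d m : ℕ} {Γ : Type*} [Group Γ] [TopologicalSpace Γ] [IsTopologicalGroup Γ]
  [MeasurableSpace Γ] [BorelSpace Γ] {μ : Measure Γ} [μ.IsHaarMeasure]
  {X : Type*} [MetricSpace X] [MeasurableSpace X] [BorelSpace X] [MulAction Γ X]
  [ContinuousSMul Γ X]

/-- **Small energy gives thin slices.** -/
theorem thin_of_energy {V : Set X} {O : Set Γ} (hOm : MeasurableSet O)
    (hJ : ∀ ε : ℝ≥0∞, 0 < ε → ∃ h : ℝ, 0 < h ∧ h ≤ 1 ∧ ∫⁻ a in O,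
      ∫⁻ y in V, Metric.ediam ((fun z => a • z) '' (ball y h ∩ V)) ^ (d + 1 + m)
        ∂(μH[((d + 1 : ℕ) : ℝ)] : Measure X) ∂μ ≤ ε * ENNReal.ofReal (h ^ d))
    (e : OpenPartialHomeomorph X (Fin (d + 1) → ℝ)) {C : ℝ≥0}
    (hC : LipschitzOnWith C e e.source) (hC' : LipschitzOnWith C e.symm e.target)
    {H : Subgroup Γ} (hHo : IsOpen (H : Set Γ)) [CompactSpace H] {g₀ : Γ}
    (hHO : ∀ a ∈ H, g₀ * a ∈ O)
    (ν : Measure H) [ν.IsHaarMeasure] [IsProbabilityMeasure ν]
    {c : Fin (d + 1) → ℝ} {s : ℝ} (hs : 0 < s) (hBt : closedBall c s ⊆ e.target)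
    (hBW : ∀ u ∈ closedBall c s, e.symm u ∈ V)
    {S : Set (Fin (d + 1) → ℝ)} (hS : S ⊆ closedBall c s) :
    ThinAe ν (fun (a : H) (u : Fin (d + 1) → ℝ) => (g₀ * (a : Γ)) • e.symm u) m S := by
  intro f g K hf hg i
  have hret : ∀ x, ret c s x ∈ closedBall c s := ret_mem c hs.le
  -- the action, extended
  set Λ : H → (Fin (d + 1) → ℝ) → X := fun a x => (g₀ * (a : Γ)) • e.symm (ret c s x) with hΛ
  have hΛc : Continuous (fun q : H × (Fin (d + 1) → ℝ) => Λ q.1 q.2) := by
    have h1 : Continuous (fun q : H × (Fin (d + 1) → ℝ) => e.symm (ret c s q.2)) :=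
      e.symm.continuousOn.comp_continuous ((continuous_ret c s).comp continuous_snd)
        (fun q => hBt (hret q.2))
    exact (continuous_const.mul (continuous_subtype_val.comp continuous_fst)).smul h1
  have hΛS : ∀ (a : H), ∀ x ∈ closedBall c s, Λ a x = (g₀ * (a : Γ)) • e.symm x := by
    intro a x hx
    simp only [hΛ]
    rw [ret_of_mem hx]
  have happc : Continuous (fun z : (Fin (d + 1) → ℝ) × (Fin m → ℝ) => Fin.append z.1 z.2) := by
    rw [continuous_pi_iff]
    intro j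
    refine Fin.addCases (fun a => ?_) (fun b => ?_) j
    · simp_rw [Fin.append_left]
      fun_prop
    · simp_rw [Fin.append_right]
      fun_prop
  set Γ' : H → (Fin (d + 1) → ℝ) → (Fin (d + 1 + m) → ℝ) := fun a x =>
    Fin.append (fun i => f i (Λ a x)) (fun j => g j (Λ a x)) with hΓ'
  have hΓ'c : Continuous (fun q : H × (Fin (d + 1) → ℝ) => Γ' q.1 q.2) := by
    have h1 : Continuous (fun q : H × (Fin (d + 1) → ℝ) =>
        ((fun i => f i (Λ q.1 q.2) : Fin (d + 1) → ℝ), (fun j => g j (Λ q.1 q.2) : Fin m → ℝ))) :=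
      (continuous_pi fun i => (hf i).continuous.comp hΛc).prodMk
        (continuous_pi fun j => (hg j).continuous.comp hΛc)
    exact happc.comp h1
  have hGV : ∀ η : ℝ≥0∞, 0 < η → ∃ N : ℕ, 0 < N ∧
      GV (d + 1 + m) (fun x => ∫ a, Γ' a x ∂ν) c s N ≤ η := by
    intro η hη
    obtain ⟨N, hN, h1⟩ := GV_energy (q := d + 1 + m) hOm hJ e hC hC' hHo hHO ν hs hBt hBW Γ'
      (K' := K) (fun a u hu v hv => by
        rw [edist_pi_le_iff]
        intro j
        rw [← hΛS a u hu, ← hΛS a v hv]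
        refine Fin.addCases (fun i => ?_) (fun l => ?_) j
        · simp only [hΓ', Fin.append_left]
          exact hf i _ _
        · simp only [hΓ', Fin.append_right]
          exact hg l _ _) hη
    refine ⟨N, hN, le_trans ?_ h1⟩
    have h2 : GV (d + m + 1) (fun x => ∫ a, Γ' a x ∂ν) c s N ≤
        ∫⁻ a, GV (d + m + 1) (Γ' a) c s N ∂ν := GV_avg_int hΓ'c c s N
    have h3 : d + m + 1 = d + 1 + m := by omega
    rwa [h3] at h2
  have hF : Continuous (fun x => ∫ a, Γ' a x ∂ν) := gavg_continuous hΓ'c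
  have h1 := ae_null_gslice hF hs hGV i
  rw [ae_restrict_iff' measurableSet_Icc] at h1
  filter_upwards [h1] with t ht
  unfold AvNull
  by_cases htI : t ∈ Icc (c i - s) (c i + s)
  · apply addHaar_prod_null (ht htI)
    rintro _ ⟨x, ⟨hx, hxt⟩, rfl⟩
    have hxc := hS hx
    refine ⟨x, ⟨_, mem_fullSlice_of_mem hs hxc i, ?_⟩, ?_⟩
    · simp only
      rw [← hxt]
      exact slc_removeNth i x
    · have hint := gavg_integrable (ν := ν) hΓ'c x
      funext j
      have h2 : (∫ a, Γ' a x ∂ν) j = ∫ a, Γ' a x j ∂ν :=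
        (ContinuousLinearMap.integral_comp_comm (ContinuousLinearMap.proj (R := ℝ)
          (φ := fun _ : Fin (d + 1 + m) => ℝ) j) hint).symm
      simp only
      rw [h2]
      refine Fin.addCases (fun i => ?_) (fun l => ?_) j
      · simp only [hΓ', Fin.append_left]
        have h3 := integral_inv_haar ν (fun a : H => f i ((g₀ * (a : Γ)) • e.symm x))
        rw [h3]
        simp only [hΛS _ x hxc]
      · simp only [hΓ', Fin.append_right]
        have h3 := integral_inv_haar ν (fun a : H => g l ((g₀ * (a : Γ)) • e.symm x))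
        rw [h3]
        simp only [hΛS _ x hxc]
  · have h2 : {x | x ∈ S ∧ x i = t} = ∅ := by
      ext x
      simp only [mem_ofPred_eq, mem_empty_iff_false, iff_false]
      rintro ⟨hx, hxt⟩
      have := mem_closedBall_coord hs (hS hx) i
      rw [hxt] at this
      exact htI this
    rw [h2, image_empty, measure_empty]

end thin

end Pool.Agent.RankS
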